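import Pool.Agent.P8H30.OX.Stm
import Pool.Agent.P8H5.MX.Blj

/-!
Project OX, package OHY: the group of relations contains the block group.
-/

set_option autoImplicit false

namespace Pool.Agent.P8H29.OX

open PowerSeries Matrix Pool.Agent.P8H30.MX Pool.Agent.P8H30.OX
open Pool.Agent.Y119.HY (Am cm E Hf Hc Yf Gal om conj_E)

theorem am_form {s n : ℕ} {J : Matrix (Fin n) (Fin n) ℂ} (hJ : J.transpose = J)
    (hA : (cm (Am n)).transpose * J + J * cm (Am n) = 0) :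
    (cm (Am (s + n))).transpose * bl 0 0 J + bl 0 0 J * cm (Am (s + n)) = 0 := by
  obtain ⟨a, c, hac⟩ := Pool.Agent.P8H5.MX.am_bl s n
  have h1 : (bl 0 0 J : Matrix (Fin (s + n)) (Fin (s + n)) ℂ) * cm (Am (s + n)) = bl 0 0 (J * cm (Am n)) := by
    rw [hac, bl_mul]
    simp
  have h2 : (cm (Am (s + n))).transpose * bl 0 0 J =
      (bl 0 0 (J * cm (Am n)) : Matrix (Fin (s + n)) (Fin (s + n)) ℂ).transpose := by
    rw [← h1, Matrix.transpose_mul, Pool.Agent.P8H5.MX.bl0_transpose, hJ]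
  have h3 : (J * cm (Am n)).transpose = -(J * cm (Am n)) := by
    rw [Matrix.transpose_mul, hJ]
    exact eq_neg_of_add_eq_zero_left hA
  rw [h1, h2, Pool.Agent.P8H5.MX.bl0_transpose, h3, Pool.Agent.P8H5.MX.bl0_neg, neg_add_cancel]

theorem ohy (rfl' : S_RFL) (alr : S_ALR) (gcl : S_GCL) (ogn : S_OGN) (jz : S_JZ) (sol : S_SOL) : S_OHY := by
  intro s n Q hQ b g hg
  obtain ⟨-, -, -, hJA, hJt, hJJ, hJd⟩ := jz n hQ.odd
  have h3 := hQ.three
  have hQ' : QG (s + n) (Polynomial.X ^ s * Q) := by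
    refine ⟨by omega, (Polynomial.monic_X_pow s).mul hQ.monic, ?_⟩
    rw [(Polynomial.monic_X_pow s).natDegree_mul hQ.monic, Polynomial.natDegree_X_pow, hQ.deg]
  have hN : cm (Am (s + n)) ^ (s + n) = 0 := Pool.Agent.Y119.HY.Ac_nil
  obtain ⟨v, hv1, hv2, hv3, hv4⟩ := rfl' s n Q hQ
  refine ogn s n (J0 n) _ hJt hJd ?_ b g hg
  refine alr (s + n) (bl 0 0 (J0 n)) (cm (Am (s + n))) v _ ?_ hN (am_form hJt hJA) hv2 hv1 ⟨n - 1, by omega, hv3⟩
    (fun c g hg => conj_E hN (sol _ _ hQ') c g hg) hv4 (gcl _ _)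
  rw [Pool.Agent.P8H5.MX.bl0_transpose, hJt]

end Pool.Agent.P8H29.OX
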