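import Pool.Agent.P8H30.OX.Stm
import Pool.Agent.P8H40.HA.Ind

/-!
Project OX, package OIN: independent entries of the holomorphic part.
-/

set_option autoImplicit false

namespace Pool.Agent.P8H29.OX

open PowerSeries Matrix Pool.Agent.P8H30.MX Pool.Agent.P8H30.OX
open Pool.Agent.Y119.HY (Am cm E E_isom E_mul_neg Hf Hc Yf Gal)
open Pool.Agent.Y119.HZ (Hp hf ix evq)

theorem qg_mul {s n : ℕ} {Q : Polynomial ℚ} (hQ : QG n Q) : QG (s + n) (Polynomial.X ^ s * Q) := by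
  refine ⟨by have := hQ.two; omega, (Polynomial.monic_X_pow s).mul hQ.monic, ?_⟩
  rw [(Polynomial.monic_X_pow s).natDegree_mul hQ.monic, Polynomial.natDegree_X_pow, hQ.deg]

theorem oin (ohy : S_OHY) (frh : S_FRH) (jz : S_JZ) (oco : S_OCO) (rel : S_REL) (hfb : S_HFB) (ebl : S_EBL) : S_OIN := by
  intro s n Q hQ
  obtain ⟨-, -, -, hJA, hJt, hJJ, hJd⟩ := jz n hQ.odd
  have hdet : ∀ x : Set.Ioo (0 : ℝ) 1, (Hf (Hc n Q) ((x : ℝ) : ℂ)).det ≠ 0 := by
    intro x h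
    have h1 := congrArg Matrix.det (frh n Q hQ x x.2.1 x.2.2)
    rw [Matrix.det_mul, h, mul_zero] at h1
    exact hJd h1.symm
  have hc : ∀ x : Set.Ioo (0 : ℝ) 1, ∃ T : Fin (n * (n - 1) / 2 + s * n) → Fin (s + n) × Fin (s + n),
      ∀ P : MvPolynomial (Fin (n * (n - 1) / 2 + s * n)) ℂ, P ≠ 0 →
        ∃ (b : Matrix (Fin s) (Fin n) ℂ) (g : Matrix (Fin n) (Fin n) ℂ), g.transpose * J0 n * g = J0 n ∧
          MvPolynomial.eval (fun i => bl 1 b (Hf (Hc n Q) ((x : ℝ) : ℂ) * g) (T i).1 (T i).2) P ≠ 0 :=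
    fun x => oco s n (J0 n) _ hJt hJd (hdet x)
  choose Tx hTx using hc
  have : Infinite (Set.Ioo (0 : ℝ) 1) := (Set.Ioo_infinite one_pos).to_subtype
  obtain ⟨T, hT⟩ := Finite.exists_infinite_fiber Tx
  refine ⟨T, ?_⟩
  rw [algebraicIndependent_iff]
  intro R₀ hR₀
  by_contra hne
  obtain ⟨m, hm⟩ : ∃ m, R₀.coeff m ≠ 0 := by
    by_contra hcon
    push Not at hcon
    exact hne (MvPolynomial.ext _ _ fun s => by rw [hcon s, MvPolynomial.coeff_zero])
  -- a point which is not a zero of the coefficient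
  obtain ⟨x, hxT, hx⟩ : ∃ x : Set.Ioo (0 : ℝ) 1, Tx x = T ∧ evq ((x : ℝ) : ℂ) (R₀.coeff m) ≠ 0 := by
    by_contra hcon
    push Not at hcon
    have h1 : ((R₀.coeff m).map (algebraMap ℚ ℂ)) = 0 := by
      refine Polynomial.eq_zero_of_infinite_isRoot _ ?_
      have h2 : Set.Infinite ((fun x : Set.Ioo (0 : ℝ) 1 => ((x : ℝ) : ℂ)) '' (Tx ⁻¹' {T})) :=
        (Set.infinite_coe_iff.1 hT).image
          (Function.Injective.injOn (Complex.ofReal_injective.comp Subtype.val_injective))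
      refine h2.mono ?_
      rintro _ ⟨x, hx, rfl⟩
      show Polynomial.eval _ _ = 0
      rw [Polynomial.eval_map_algebraMap]
      exact hcon x hx
    exact hm ((Polynomial.map_eq_zero (algebraMap ℚ ℂ)).1 h1)
  set P : MvPolynomial (Fin (n * (n - 1) / 2 + s * n)) ℂ := MvPolynomial.map (evq ((x : ℝ) : ℂ)) R₀ with hP
  have hP0 : P ≠ 0 := by
    intro h
    apply hx
    rw [← MvPolynomial.coeff_map, ← hP, h, MvPolynomial.coeff_zero]
  obtain ⟨b, g, hg, hgP⟩ := hTx x P hP0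
  rw [hxT] at hgP
  obtain ⟨b0, hb0⟩ := hfb s n Q ((x : ℝ) : ℂ)
  apply hgP
  have hmul : Hf (Hc (s + n) (Polynomial.X ^ s * Q)) ((x : ℝ) : ℂ) * bl 1 (b - b0 * g) g =
      bl 1 b (Hf (Hc n Q) ((x : ℝ) : ℂ) * g) := by
    rw [hb0, bl_mul, Matrix.one_mul, Matrix.one_mul, sub_add_cancel]
  have hN : cm (Am (s + n)) ^ (s + n) = 0 := Pool.Agent.Y119.HY.Ac_nil
  have hNn : cm (Am n) ^ n = 0 := Pool.Agent.Y119.HY.Ac_nil
  have hgal : ∀ L : ℂ, E (cm (Am (s + n))) (-L) * bl 1 (b - b0 * g) g * E (cm (Am (s + n))) L ∈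
      Gal (Yf (cm (Am (s + n))) (Hc (s + n) (Polynomial.X ^ s * Q))) := by
    intro L
    obtain ⟨P1, R1, h1⟩ := ebl s n L
    obtain ⟨P2, R2, h2⟩ := ebl s n (-L)
    have h3 : P2 * P1 = 1 := by
      have h4 : E (cm (Am (s + n))) (-L) * E (cm (Am (s + n))) (- -L) = 1 := E_mul_neg hN _
      rw [neg_neg, h1, h2, bl_mul] at h4
      ext i j
      have h5 := congrFun (congrFun h4 (Fin.castAdd n i)) (Fin.castAdd n j)
      rw [bl_castAdd] at h5
      rw [h5, Matrix.one_apply, Matrix.one_apply]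
      simp only [Fin.castAdd_inj]
    rw [h1, h2, bl_mul, bl_mul, Matrix.mul_one, h3]
    refine ohy s n Q hQ _ _ ?_
    exact Pool.Agent.Y119.HZ.isom_mul (Pool.Agent.Y119.HZ.isom_mul (E_isom hNn hJA _) hg) (E_isom hNn hJA _)
  have h1 := rel (s + n) (Polynomial.X ^ s * Q) (qg_mul hQ.toG)
    (MvPolynomial.rename (fun i => (ix (s + n)).symm (T i)) R₀) (by
    rw [MvPolynomial.aeval_rename, ← hR₀]
    congr 2
    funext i
    show hf (s + n) (Polynomial.X ^ s * Q) ((ix (s + n)).symm (T i)) = _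
    unfold hf
    rw [Equiv.apply_symm_apply]) x x.2.1 x.2.2 _ hgal
  rw [MvPolynomial.eval₂_rename, hmul] at h1
  rw [hP, MvPolynomial.eval_map, ← h1]
  congr 1
  funext i
  simp only [Function.comp_apply, Equiv.apply_symm_apply]

end Pool.Agent.P8H29.OX
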