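import Pool.Agent.P8H29.OX.Rjc

/-!
Project OX, package RFL: the reflection.
-/

set_option autoImplicit false

namespace Pool.Agent.P8H29.OX

open Matrix Pool.Agent.P8H30.MX Pool.Agent.P8H30.OX
open Pool.Agent.Y119.HY (Am uc ec mv_apply cm cm_apply cm_pow Am_pow Ac_last Ac_nil E Hf Hc Yf Gal om om_eq Lens PG real_mem_Lens
  ps_an Sol)
open Pool.Agent.P8H5.MX (eq_bl bl0_transpose)

variable {s n : ℕ}

/-- an isometry of the form `1 - (2 / c) v ⊗ ψ` with `ψ(v) = c` -/
theorem isom_rk {d : ℕ} {J : Matrix (Fin d) (Fin d) ℂ} (hJ : J.transpose = J) {v ψ : Fin d → ℂ} {c : ℂ} (hc : c ≠ 0)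
    (hψ : ψ ⬝ᵥ v = c)
    (h : (1 - (2 / c) • vecMulVec v ψ).transpose * J * (1 - (2 / c) • vecMulVec v ψ) = J) (j : Fin d) :
    c * (v ᵥ* J) j = om J v v * ψ j := by
  set a : ℂ := 2 / c with ha
  set χ := v ᵥ* J with hχ
  set ω := om J v v with hω
  have hω' : ω = χ ⬝ᵥ v := om_eq v v
  have e0 : J *ᵥ v = χ := by rw [hχ, ← Matrix.mulVec_transpose, hJ]
  have e1 : (1 - a • vecMulVec v ψ).transpose * J * (1 - a • vecMulVec v ψ) =
      J - a • vecMulVec ψ χ - a • vecMulVec χ ψ + (a * a * ω) • vecMulVec ψ ψ := by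
    rw [Matrix.transpose_sub, Matrix.transpose_one, Matrix.transpose_smul, Matrix.transpose_vecMulVec, Matrix.sub_mul,
      Matrix.one_mul, Matrix.smul_mul, Matrix.vecMulVec_mul, ← hχ, Matrix.mul_sub, Matrix.mul_one, Matrix.mul_smul,
      Matrix.sub_mul, Matrix.smul_mul, Matrix.mul_vecMulVec, e0, Matrix.vecMulVec_mul_vecMulVec, ← hω',
      Matrix.vecMulVec_smul, smul_sub, smul_smul, smul_smul]
    abel
  rw [e1] at h
  have key : ∀ i j, a * (ψ i * χ j + χ i * ψ j) = a * a * ω * (ψ i * ψ j) := by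
    intro i j
    have h1 := congrFun (congrFun h i) j
    simp only [Matrix.add_apply, Matrix.sub_apply, Matrix.smul_apply, vecMulVec_apply, smul_eq_mul] at h1
    linear_combination -h1
  have ha0 : a ≠ 0 := div_ne_zero two_ne_zero hc
  have key' : ∀ i j, c * (ψ i * χ j + χ i * ψ j) = 2 * ω * (ψ i * ψ j) := by
    intro i j
    have h1 := key i j
    have h2 : ψ i * χ j + χ i * ψ j = a * ω * (ψ i * ψ j) := by
      apply mul_left_cancel₀ ha0
      linear_combination h1
    rw [h2, ha]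
    field_simp
  obtain ⟨i, hi⟩ : ∃ i, ψ i ≠ 0 := by
    by_contra hcon
    push Not at hcon
    apply hc
    rw [← hψ]
    unfold dotProduct
    exact Finset.sum_eq_zero fun i _ => by rw [hcon i, zero_mul]
  have h1 : c * χ i = ω * ψ i := by
    have := key' i i
    apply mul_left_cancel₀ hi
    linear_combination (1 / 2) * this
  apply mul_left_cancel₀ hi
  linear_combination key' i j - ψ j * h1

/-- the entries of `w J0` -/
theorem vecMul_J0 (hn : 0 < n) (w : Fin n → ℂ) : (w ᵥ* J0 n) ⟨0, hn⟩ = (-1) ^ (n - 1) * w ⟨n - 1, by omega⟩ := by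
  show ∑ i, w i * J0 n i ⟨0, hn⟩ = _
  rw [Finset.sum_eq_single ⟨n - 1, by omega⟩]
  · unfold J0 J0q
    rw [cm_apply, Matrix.of_apply, if_pos (by simp only; omega)]
    push_cast
    ring
  · intro b _ hb
    unfold J0 J0q
    rw [cm_apply, Matrix.of_apply, if_neg, Rat.cast_zero, mul_zero]
    intro h
    apply hb
    apply Fin.ext
    simp only at h ⊢
    omega
  · intro h
    exact absurd (Finset.mem_univ _) h

theorem vecMul_bl0_left (v : Fin (s + n) → ℂ) (K : Matrix (Fin n) (Fin n) ℂ) (j : Fin s) :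
    (v ᵥ* bl 0 0 K) (Fin.castAdd n j) = 0 := by
  unfold vecMul dotProduct
  rw [Fin.sum_univ_add]
  simp only [bl_castAdd, bl_left, Matrix.zero_apply, mul_zero, Finset.sum_const_zero, add_zero]

theorem vecMul_bl0_right (v : Fin (s + n) → ℂ) (K : Matrix (Fin n) (Fin n) ℂ) (j : Fin n) :
    (v ᵥ* bl 0 0 K) (Fin.natAdd s j) = ((fun i => v (Fin.natAdd s i)) ᵥ* K) j := by
  unfold vecMul dotProduct
  rw [Fin.sum_univ_add]
  simp only [bl_right, bl_natAdd, Matrix.zero_apply, mul_zero, Finset.sum_const_zero, zero_add]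

theorem rfl' (con : S_CON1) (mon : S_MON) (rjc : S_RJC) (sno : S_SNO) (jz : S_JZ) (sol : S_SOL) : S_RFL := by
  intro s n Q hQ
  obtain ⟨-, -, -, hJA, hJt, hJJ, hJd⟩ := jz n hQ.odd
  have hn3 := hQ.three
  obtain ⟨m, hm⟩ := hQ.odd
  have hQ' : QG (s + n) (Polynomial.X ^ s * Q) := by
    refine ⟨by omega, (Polynomial.monic_X_pow s).mul hQ.monic, ?_⟩
    rw [(Polynomial.monic_X_pow s).natDegree_mul hQ.monic, Polynomial.natDegree_X_pow, hQ.deg]
  set N := cm (Am (s + n)) with hNd
  set H := Hc (s + n) (Polynomial.X ^ s * Q) with hH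
  set B := cm (Pool.Agent.Y119.HY.Bm (s + n) (Polynomial.X ^ s * Q)) with hB
  have hN : N ^ (s + n) = 0 := Ac_nil
  have hS : Sol N B H := sol _ _ hQ'
  set J : Matrix (Fin (s + n)) (Fin (s + n)) ℂ := bl 0 0 (J0 n) with hJ
  have hJsym : J.transpose = J := by rw [hJ, bl0_transpose, hJt]
  -- the matrix `B`
  set u := uc (s + n) with hu
  set q : Fin (s + n) → ℂ := fun j => (((Polynomial.X ^ s * Q).coeff j : ℚ) : ℂ) with hq
  have hBq : B = vecMulVec u q := by
    ext i j
    rw [hB, cm_apply, vecMulVec_apply]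
    unfold Pool.Agent.Y119.HY.Bm
    rw [hu, Matrix.of_apply]
    unfold uc
    split_ifs
    · rw [one_mul]
    · rw [zero_mul, Rat.cast_zero]
  have hqu : q ⬝ᵥ u = (n : ℂ) / 2 := by
    unfold dotProduct
    rw [Finset.sum_eq_single ⟨s + n - 1, by omega⟩]
    · rw [hu, hq]
      unfold uc
      simp only
      rw [if_pos (by omega), mul_one, Polynomial.coeff_X_pow_mul', if_pos (by omega)]
      have h1 : s + n - 1 - s = n - 1 := by omega
      rw [h1, hQ.sub]
      push_cast
      rfl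
    · intro b _ hb
      rw [hu]
      unfold uc
      rw [if_neg, mul_zero]
      intro h
      apply hb
      apply Fin.ext
      simp only
      omega
    · intro h
      exact absurd (Finset.mem_univ _) h
  have hn0 : (n : ℂ) ≠ 0 := by
    have : n ≠ 0 := by omega
    exact_mod_cast this
  have hc0 : (n : ℂ) / 2 ≠ 0 := div_ne_zero hn0 two_ne_zero
  have hlam : (((-((m : ℤ) + 1) : ℤ) : ℂ) + 1 / 2) = -((n : ℂ) / 2) := by
    rw [hm]
    push_cast
    ring
  have hBB : (-B) * (-B) = (((-((m : ℤ) + 1) : ℤ) : ℂ) + 1 / 2) • (-B) := by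
    rw [hlam, Matrix.neg_mul, Matrix.mul_neg, neg_neg, hBq, Matrix.vecMulVec_mul_vecMulVec, hqu, Matrix.vecMulVec_smul,
      smul_neg, neg_smul, neg_neg]
  obtain ⟨K, M, Mi, hK, hMMi, hMiM, hcon⟩ := con (s + n) N B H (-((m : ℤ) + 1)) hN hBB hS
  have hR := mon (s + n) (-B) K M Mi (Yf N H) (-((m : ℤ) + 1)) hBB hK hMMi (fun x hx hx1 => hcon _ (real_mem_Lens hx hx1))
  set v : Fin (s + n) → ℂ := Mi *ᵥ u with hv
  set ψ : Fin (s + n) → ℂ := q ᵥ* M with hψ
  have hψv : ψ ⬝ᵥ v = (n : ℂ) / 2 := by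
    rw [hψ, hv, ← Matrix.dotProduct_mulVec, Matrix.mulVec_mulVec, hMMi, Matrix.one_mulVec, hqu]
  have hReq : Mi * (1 - (2 / (((-((m : ℤ) + 1) : ℤ) : ℂ) + 1 / 2)) • (-B)) * M = 1 - (2 / ((n : ℂ) / 2)) • vecMulVec v ψ := by
    rw [hlam, div_neg, neg_smul_neg, hBq, Matrix.mul_sub, Matrix.mul_one, Matrix.sub_mul, hMiM, Matrix.mul_smul,
      Matrix.smul_mul, Matrix.mul_vecMulVec, Matrix.vecMulVec_mul]
  rw [hReq] at hR
  obtain ⟨b, g, hbg, hg⟩ := rjc s n Q hQ _ hR
  have hiso : (1 - (2 / ((n : ℂ) / 2)) • vecMulVec v ψ).transpose * J * (1 - (2 / ((n : ℂ) / 2)) • vecMulVec v ψ) = J := by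
    rw [hbg, hJ, bl0_form, hg]
  have hχ := isom_rk hJsym hc0 hψv hiso
  -- the upper part of `ψ` vanishes
  have hv0 : ∃ i, v i ≠ 0 := by
    by_contra hcon
    push Not at hcon
    apply hc0
    rw [← hψv]
    unfold dotProduct
    exact Finset.sum_eq_zero fun i _ => by rw [hcon i, mul_zero]
  have hψ0 : ∀ j : Fin s, ψ (Fin.castAdd n j) = 0 := by
    intro j
    obtain ⟨i, hi⟩ := hv0
    have h1 : (1 - (2 / ((n : ℂ) / 2)) • vecMulVec v ψ) i (Fin.castAdd n j) =
        (1 : Matrix (Fin (s + n)) (Fin (s + n)) ℂ) i (Fin.castAdd n j) := by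
      rw [hbg]
      refine Fin.addCases (fun i => ?_) (fun i => ?_) i
      · rw [bl_castAdd, Matrix.one_apply, Matrix.one_apply]
        simp only [Fin.castAdd_inj]
      · rw [bl_left, Matrix.one_apply_ne]
        intro h
        have := congrArg Fin.val h
        simp only [Fin.val_natAdd, Fin.val_castAdd] at this
        omega
    rw [Matrix.sub_apply, Matrix.smul_apply, vecMulVec_apply, smul_eq_mul] at h1
    have h2 : (2 / ((n : ℂ) / 2)) * (v i * ψ (Fin.castAdd n j)) = 0 := by linear_combination -h1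
    rcases mul_eq_zero.1 h2 with h3 | h3
    · exact absurd h3 (div_ne_zero two_ne_zero hc0)
    · exact (mul_eq_zero.1 h3).resolve_left hi
  -- `v` is not isotropic
  have hvv : om J v v ≠ 0 := by
    intro h0
    have h1 : ∀ j, (v ᵥ* J) j = 0 := by
      intro j
      have := hχ j
      rw [h0, zero_mul] at this
      exact (mul_eq_zero.1 this).resolve_left hc0
    have h2 : (fun i => v (Fin.natAdd s i)) ᵥ* J0 n = 0 := by
      funext j
      rw [← vecMul_bl0_right]
      exact h1 _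
    have h3 : (fun i => v (Fin.natAdd s i)) = 0 := by
      have h4 := congrArg (fun w => w ᵥ* J0 n) h2
      simp only [Matrix.vecMul_vecMul, hJJ, Matrix.vecMul_one, Matrix.zero_vecMul] at h4
      exact h4
    apply hc0
    rw [← hψv]
    unfold dotProduct
    rw [Fin.sum_univ_add]
    have h5 : ∀ i : Fin n, v (Fin.natAdd s i) = 0 := fun i => congrFun h3 i
    simp only [hψ0, h5, zero_mul, mul_zero, Finset.sum_const_zero, add_zero]
  -- the reflection
  have hrf : 1 - (2 / ((n : ℂ) / 2)) • vecMulVec v ψ = rf J v := by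
    unfold rf
    congr 1
    ext i j
    rw [Matrix.smul_apply, Matrix.smul_apply, vecMulVec_apply, vecMulVec_apply, smul_eq_mul, smul_eq_mul]
    have h1 := hχ j
    have h2 : (v ᵥ* J) j = om J v v * ψ j / ((n : ℂ) / 2) := by
      rw [eq_div_iff hc0]
      linear_combination h1
    rw [h2]
    field_simp
  -- the last entry
  have hψe : ψ ⬝ᵥ es s n ≠ 0 := by
    intro h0
    have h1 : (-B) *ᵥ (M *ᵥ es s n) = 0 := by
      rw [hBq, Matrix.neg_mulVec, Matrix.vecMulVec_mulVec, Matrix.dotProduct_mulVec, ← hψ, h0]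
      simp
    refine sno s n Q ⟨s, by omega⟩ hQ.toG hQ.ne rfl
      (fun z => (Hf K (1 - z) *ᵥ (M *ᵥ es s n)) ⟨s, by omega⟩) ?_ fun z hz => ?_
    · simp only [Matrix.mulVec, dotProduct]
      refine Finset.analyticOnNhd_fun_sum _ fun j _ => AnalyticOnNhd.mul ?_ analyticOnNhd_const
      intro z hz
      have h3 : AnalyticAt ℂ (fun w => Hf K w ⟨s, by omega⟩ j) (1 - z) := ps_an (hK ⟨s, by omega⟩ j) (1 - z) (by
        rw [Metric.mem_ball, dist_comm, dist_eq_norm] at hz
        rwa [Metric.mem_ball, dist_zero_right])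
      have h4 : AnalyticAt ℂ (fun w : ℂ => 1 - w) z := analyticAt_const.sub analyticAt_id
      exact h3.fun_comp h4
    · have h3 := congrArg (fun X : Matrix (Fin (s + n)) (Fin (s + n)) ℂ => X *ᵥ es s n) (hcon z hz)
      rw [h3, ← Matrix.mulVec_mulVec, ← Matrix.mulVec_mulVec]
      unfold Xp
      rw [Matrix.add_mulVec, Matrix.one_mulVec, Matrix.smul_mulVec, h1, smul_zero, add_zero]
  have hχs : (v ᵥ* J) (Fin.natAdd s ⟨0, by omega⟩) = (-1) ^ (n - 1) * v ⟨s + n - 1, by omega⟩ := by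
    rw [hJ, vecMul_bl0_right, vecMul_J0 (by omega)]
    congr 2
    apply Fin.ext
    simp only [Fin.natAdd_mk]
    omega
  have hes : ψ ⬝ᵥ es s n = ψ (Fin.natAdd s ⟨0, by omega⟩) := by
    unfold dotProduct es
    rw [Finset.sum_eq_single (Fin.natAdd s ⟨0, by omega⟩)]
    · rw [if_pos (by simp), mul_one]
    · intro b _ hb
      rw [if_neg, mul_zero]
      intro h
      apply hb
      apply Fin.ext
      simp only [Fin.natAdd_mk]
      omega
    · intro h
      exact absurd (Finset.mem_univ _) h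
  have hlast : v ⟨s + n - 1, by omega⟩ ≠ 0 := by
    intro h0
    rw [h0, mul_zero] at hχs
    have h1 := hχ (Fin.natAdd s ⟨0, by omega⟩)
    rw [hχs, mul_zero] at h1
    apply hψe
    rw [hes]
    exact (mul_eq_zero.1 h1.symm).resolve_left hvv
  refine ⟨v, hvv, ?_, ?_, ?_⟩
  · rw [hNd, Ac_last (by omega)]
    intro h
    have h1 := congrFun h ⟨0, by omega⟩
    rw [Pi.smul_apply, smul_eq_mul] at h1
    unfold ec at h1
    rw [if_pos rfl, mul_one] at h1
    exact hlast h1
  · rw [om_eq]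
    unfold dotProduct
    rw [Fin.sum_univ_add]
    have e1 : ∀ i : Fin s, (v ᵥ* J) (Fin.castAdd n i) = 0 := fun i => vecMul_bl0_left v (J0 n) i
    simp only [e1, zero_mul, Finset.sum_const_zero, zero_add]
    rw [Finset.sum_eq_single ⟨0, by omega⟩]
    · rw [hχs]
      refine mul_ne_zero (mul_ne_zero (pow_ne_zero _ (neg_ne_zero.2 one_ne_zero)) hlast) ?_
      have e2 : ((N ^ (n - 1)) *ᵥ v) (Fin.natAdd s ⟨0, by omega⟩) = v ⟨s + n - 1, by omega⟩ := by
        rw [hNd, ← cm_pow, mv_apply, Finset.sum_eq_single ⟨s + n - 1, by omega⟩]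
        · rw [cm_apply, Am_pow, if_pos, Rat.cast_one, one_mul]
          simp only [Fin.natAdd_mk]
          omega
        · intro b _ hb
          rw [cm_apply, Am_pow, if_neg, Rat.cast_zero, zero_mul]
          intro h
          apply hb
          apply Fin.ext
          simp only [Fin.natAdd_mk] at h ⊢
          omega
        · intro h
          exact absurd (Finset.mem_univ _) h
      rw [e2]
      exact hlast
    · intro b _ hb
      have e2 : ((N ^ (n - 1)) *ᵥ v) (Fin.natAdd s b) = 0 := by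
        rw [hNd, ← cm_pow, mv_apply]
        refine Finset.sum_eq_zero fun k _ => ?_
        rw [cm_apply, Am_pow, if_neg, Rat.cast_zero, zero_mul]
        intro h
        apply hb
        apply Fin.ext
        have := k.2
        simp only [Fin.val_natAdd] at h ⊢
        omega
      rw [e2, mul_zero]
    · intro h
      exact absurd (Finset.mem_univ _) h
  · rw [← hrf]
    exact hR

end Pool.Agent.P8H29.OX
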