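import Pool.Agent.P8H30.OX.Stm
import Pool.Agent.P8H5.MX.Blj

/-!
Project OX, package RJC: the elements of the group are block matrices with orthogonal lower right block.
-/

set_option autoImplicit false

namespace Pool.Agent.P8H29.OX

open Matrix Pool.Agent.P8H30.MX Pool.Agent.P8H30.OX
open Pool.Agent.Y119.HY (Am cm E Ep Ep_eval E_isom E_mul_neg Hf Hc Yf Gal Rel Vr pt ev)
open Pool.Agent.P8H5.MX (eq_bl bl0_transpose)

variable {s n : ℕ}

theorem bl0_form (a : Matrix (Fin s) (Fin s) ℂ) (b : Matrix (Fin s) (Fin n) ℂ) (g K : Matrix (Fin n) (Fin n) ℂ) :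
    (bl a b g).transpose * bl 0 0 K * bl a b g = bl 0 0 (g.transpose * K * g) := by
  have h1 : ∀ M : Matrix (Fin n) (Fin n) ℂ, (bl 0 0 M : Matrix (Fin (s + n)) (Fin (s + n)) ℂ) * bl a b g =
      bl 0 0 (M * g) := by
    intro M
    rw [bl_mul]
    simp
  have h2 : (bl a b g).transpose * bl 0 0 K = bl 0 0 (g.transpose * K) := by
    have h3 : (bl a b g).transpose * bl 0 0 K = ((bl 0 0 K.transpose : Matrix (Fin (s + n)) (Fin (s + n)) ℂ) *
        bl a b g).transpose := by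
      rw [Matrix.transpose_mul, bl0_transpose, Matrix.transpose_transpose]
    rw [h3, h1, bl0_transpose, Matrix.transpose_mul, Matrix.transpose_transpose]
  rw [h2, h1]

theorem bl0_inj {K K' : Matrix (Fin n) (Fin n) ℂ}
    (h : (bl 0 0 K : Matrix (Fin (s + n)) (Fin (s + n)) ℂ) = bl 0 0 K') : K = K' := by
  ext i j
  have h1 := congrFun (congrFun h (Fin.natAdd s i)) (Fin.natAdd s j)
  rwa [bl_natAdd, bl_natAdd] at h1

theorem bl0_sub (K K' : Matrix (Fin n) (Fin n) ℂ) (z : ℂ) :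
    (bl 0 0 (K - z • K') : Matrix (Fin (s + n)) (Fin (s + n)) ℂ) = bl 0 0 K - z • bl 0 0 K' := by
  ext i j
  refine Fin.addCases (fun i => ?_) (fun i => ?_) i <;> refine Fin.addCases (fun j => ?_) (fun j => ?_) j
  · simp [bl_castAdd]
  · simp [bl_right]
  · simp [bl_left]
  · simp [bl_natAdd]

/-- the linear relations -/
noncomputable def Pa (N : Matrix (Fin (s + n)) (Fin (s + n)) ℂ) (i j : Fin (s + n)) : MvPolynomial (Vr (s + n)) ℂ :=
  MvPolynomial.X (some (some (i, j))) - Polynomial.aeval (MvPolynomial.X (some none)) (Ep N i j)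

theorem ev_Pa (N : Matrix (Fin (s + n)) (Fin (s + n)) ℂ) (i j : Fin (s + n)) (z L : ℂ)
    (M : Matrix (Fin (s + n)) (Fin (s + n)) ℂ) : ev (Pa N i j) z L M = M i j - E N L i j := by
  unfold ev Pa
  rw [map_sub, MvPolynomial.eval_X]
  have h1 : (MvPolynomial.eval (pt z L M)) (Polynomial.aeval (MvPolynomial.X (some none)) (Ep N i j)) =
      (Ep N i j).eval L := by
    have h2 : (MvPolynomial.aeval (pt z L M) : MvPolynomial (Vr (s + n)) ℂ →ₐ[ℂ] ℂ)
        (Polynomial.aeval (MvPolynomial.X (some none)) (Ep N i j)) =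
        Polynomial.aeval ((MvPolynomial.aeval (pt z L M) : MvPolynomial (Vr (s + n)) ℂ →ₐ[ℂ] ℂ)
          (MvPolynomial.X (some none))) (Ep N i j) := (Polynomial.aeval_algHom_apply _ _ _).symm
    rw [MvPolynomial.aeval_X] at h2
    exact h2
  rw [h1, ← Ep_eval]
  rfl

/-- the quadratic relations -/
noncomputable def Pb (J K : Matrix (Fin (s + n)) (Fin (s + n)) ℂ) (i j : Fin (s + n)) : MvPolynomial (Vr (s + n)) ℂ :=
  (∑ l, (∑ k, MvPolynomial.X (some (some (k, i))) * (MvPolynomial.C (J k l) - MvPolynomial.X none * MvPolynomial.C (K k l))) *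
    MvPolynomial.X (some (some (l, j)))) - MvPolynomial.C (J i j)

theorem ev_Pb (J K : Matrix (Fin (s + n)) (Fin (s + n)) ℂ) (i j : Fin (s + n)) (z L : ℂ)
    (M : Matrix (Fin (s + n)) (Fin (s + n)) ℂ) :
    ev (Pb J K i j) z L M = (M.transpose * (J - z • K) * M) i j - J i j := by
  unfold ev Pb
  rw [map_sub, map_sum, MvPolynomial.eval_C, Matrix.mul_apply]
  congr 1
  refine Finset.sum_congr rfl fun l _ => ?_
  rw [map_mul, map_sum, MvPolynomial.eval_X, Matrix.mul_apply]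
  congr 1
  refine Finset.sum_congr rfl fun k _ => ?_
  rw [map_mul, map_sub, map_mul, MvPolynomial.eval_X, MvPolynomial.eval_X, MvPolynomial.eval_C, MvPolynomial.eval_C]
  rfl

theorem rjc (frh : S_FRH) (jz : S_JZ) (hfb : S_HFB) (ebl : S_EBL) : S_RJC := by
  intro s n Q hQ R hR
  obtain ⟨-, -, -, hJA, hJt, hJJ, hJd⟩ := jz n hQ.odd
  set N := cm (Am (s + n)) with hNd
  set H := Hc (s + n) (Polynomial.X ^ s * Q) with hH
  have hN : N ^ (s + n) = 0 := Pool.Agent.Y119.HY.Ac_nil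
  have hNn : cm (Am n) ^ n = 0 := Pool.Agent.Y119.HY.Ac_nil
  have hN' : (cm (Am n)).transpose * J0 n + J0 n * cm (Am n) = 0 := hJA
  -- block form
  have hY : ∀ x : ℝ, ∃ (P : Matrix (Fin s) (Fin s) ℂ) (b : Matrix (Fin s) (Fin n) ℂ) (S : Matrix (Fin s) (Fin n) ℂ),
      Yf N H (x : ℂ) = bl P b (Hf (Hc n Q) (x : ℂ) * E (cm (Am n)) (Complex.log x)) ∧
      E N (Complex.log x) = bl P S (E (cm (Am n)) (Complex.log x)) := by
    intro x
    obtain ⟨b0, hb0⟩ := hfb s n Q (x : ℂ)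
    obtain ⟨P, S, h1⟩ := ebl s n (Complex.log x)
    refine ⟨P, (1 : Matrix (Fin s) (Fin s) ℂ) * S + b0 * E (cm (Am n)) (Complex.log x), S, ?_, h1⟩
    unfold Yf
    rw [hH, hb0, hNd, h1, bl_mul, Matrix.one_mul]
  -- the relations
  have ra : ∀ i : Fin (s + n), ∀ j : Fin s, Pa N i (Fin.castAdd n j) ∈ Rel (Yf N H) := by
    intro i j x hx hx1
    rw [ev_Pa]
    obtain ⟨P, b, S, h1, h2⟩ := hY x
    rw [h1, h2]
    refine Fin.addCases (fun i => ?_) (fun i => ?_) i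
    · rw [bl_castAdd, bl_castAdd, sub_self]
    · rw [bl_left, bl_left, sub_self]
  have rb0 : ∀ x : ℝ, 0 < x → x < 1 → (Yf N H (x : ℂ)).transpose *
      (bl 0 0 (J0 n) - (x : ℂ) • bl 0 0 (cm (Em n Q))) * Yf N H (x : ℂ) = bl 0 0 (J0 n) := by
    intro x hx hx1
    obtain ⟨P, b, S, h1, h2⟩ := hY x
    rw [h1, ← bl0_sub, bl0_form]
    congr 1
    have h3 := frh n Q hQ x hx hx1
    have h4 := E_isom hNn hN' (Complex.log x)
    calc (Hf (Hc n Q) (x : ℂ) * E (cm (Am n)) (Complex.log x)).transpose * (J0 n - (x : ℂ) • cm (Em n Q)) *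
          (Hf (Hc n Q) (x : ℂ) * E (cm (Am n)) (Complex.log x)) =
        (E (cm (Am n)) (Complex.log x)).transpose * ((Hf (Hc n Q) (x : ℂ)).transpose * (J0 n - (x : ℂ) • cm (Em n Q)) *
          Hf (Hc n Q) (x : ℂ)) * E (cm (Am n)) (Complex.log x) := by
          rw [Matrix.transpose_mul]
          simp only [Matrix.mul_assoc]
      _ = J0 n := by rw [h3, h4]
  have rb : ∀ i j : Fin (s + n), Pb (bl 0 0 (J0 n)) (bl 0 0 (cm (Em n Q))) i j ∈ Rel (Yf N H) := by
    intro i j x hx hx1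
    rw [ev_Pb, rb0 x hx hx1, sub_self]
  -- a point
  set x : ℝ := 1 / 2 with hx
  have hx0 : 0 < x := by rw [hx]; norm_num
  have hx1 : x < 1 := by rw [hx]; norm_num
  have ra' : ∀ i : Fin (s + n), ∀ j : Fin s, (Yf N H (x : ℂ) * R) i (Fin.castAdd n j) = Yf N H (x : ℂ) i (Fin.castAdd n j) := by
    intro i j
    have h1 := hR _ (ra i j) x hx0 hx1
    have h2 := ra i j x hx0 hx1
    rw [ev_Pa] at h1 h2
    linear_combination h1 - h2
  have rb' : (Yf N H (x : ℂ) * R).transpose *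
      (bl 0 0 (J0 n) - (x : ℂ) • bl 0 0 (cm (Em n Q))) * (Yf N H (x : ℂ) * R) = bl 0 0 (J0 n) := by
    ext i j
    have h1 := hR _ (rb i j) x hx0 hx1
    rw [ev_Pb] at h1
    linear_combination h1
  have rc : R.transpose * bl 0 0 (J0 n) * R = bl 0 0 (J0 n) := by
    calc R.transpose * bl 0 0 (J0 n) * R = R.transpose * ((Yf N H (x : ℂ)).transpose *
          (bl 0 0 (J0 n) - (x : ℂ) • bl 0 0 (cm (Em n Q))) * Yf N H (x : ℂ)) * R := by rw [rb0 x hx0 hx1]
      _ = (Yf N H (x : ℂ) * R).transpose *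
          (bl 0 0 (J0 n) - (x : ℂ) • bl 0 0 (cm (Em n Q))) * (Yf N H (x : ℂ) * R) := by
        rw [Matrix.transpose_mul]
        simp only [Matrix.mul_assoc]
      _ = _ := rb'
  -- invertibility
  obtain ⟨V, hV⟩ : ∃ V : Matrix (Fin (s + n)) (Fin (s + n)) ℂ, V * Yf N H (x : ℂ) = 1 := by
    have hd : (Hf (Hc n Q) (x : ℂ)).det ≠ 0 := by
      intro h
      have h1 := congrArg Matrix.det (frh n Q hQ x hx0 hx1)
      rw [Matrix.det_mul, h, mul_zero] at h1
      exact hJd h1.symm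
    obtain ⟨b0, hb0⟩ := hfb s n Q (x : ℂ)
    refine ⟨E N (-Complex.log x) * bl 1 (-(b0 * (Hf (Hc n Q) (x : ℂ))⁻¹)) (Hf (Hc n Q) (x : ℂ))⁻¹, ?_⟩
    unfold Yf
    have h2 : (bl 1 (-(b0 * (Hf (Hc n Q) (x : ℂ))⁻¹)) (Hf (Hc n Q) (x : ℂ))⁻¹ : Matrix (Fin (s + n)) (Fin (s + n)) ℂ) *
        Hf H (x : ℂ) = 1 := by
      rw [hH, hb0, bl_mul, Matrix.one_mul, Matrix.one_mul, Matrix.neg_mul, Matrix.mul_assoc,
        Matrix.nonsing_inv_mul _ (Ne.isUnit hd), Matrix.mul_one, add_neg_cancel, bl_one]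
    have h3 : E N (-Complex.log x) * E N (Complex.log x) = 1 := by
      have := E_mul_neg hN (-Complex.log x)
      rwa [neg_neg] at this
    calc E N (-Complex.log x) * bl 1 (-(b0 * (Hf (Hc n Q) (x : ℂ))⁻¹)) (Hf (Hc n Q) (x : ℂ))⁻¹ *
          (Hf H (x : ℂ) * E N (Complex.log x)) = E N (-Complex.log x) *
          (bl 1 (-(b0 * (Hf (Hc n Q) (x : ℂ))⁻¹)) (Hf (Hc n Q) (x : ℂ))⁻¹ * Hf H (x : ℂ)) * E N (Complex.log x) := by
            simp only [Matrix.mul_assoc]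
      _ = 1 := by rw [h2, Matrix.mul_one, h3]
  have rd : ∀ i : Fin (s + n), ∀ j : Fin s, R i (Fin.castAdd n j) =
      (1 : Matrix (Fin (s + n)) (Fin (s + n)) ℂ) i (Fin.castAdd n j) := by
    intro i j
    have h1 : R = V * (Yf N H (x : ℂ) * R) := by rw [← Matrix.mul_assoc, hV, Matrix.one_mul]
    rw [h1, ← hV, Matrix.mul_apply, Matrix.mul_apply]
    refine Finset.sum_congr rfl fun k _ => ?_
    rw [ra' k j]
  have h1 := eq_bl R (Matrix.of fun i j => R (Fin.natAdd s i) (Fin.natAdd s j)) (fun i j => by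
    rw [rd, Matrix.one_apply_ne]
    intro h
    have := congrArg Fin.val h
    simp only [Fin.val_natAdd, Fin.val_castAdd] at this
    omega) (fun i j => rfl)
  have h2 : (Matrix.of fun i j => R (Fin.castAdd n i) (Fin.castAdd n j) : Matrix (Fin s) (Fin s) ℂ) = 1 := by
    ext i j
    rw [Matrix.of_apply, rd, Matrix.one_apply, Matrix.one_apply]
    simp only [Fin.castAdd_inj]
  rw [h2] at h1
  refine ⟨_, _, h1, ?_⟩
  rw [h1, bl0_form] at rc
  exact bl0_inj rc

end Pool.Agent.P8H29.OX
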